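import Pool.Agent.H593R3.DRB.Red
import Pool.Agent.H593R3.DRB.Mem

/-!
# The red-blue cut problem in directed graphs is NP-complete

The reduction is from CLIQUE, through red-blue `s`-`t` cuts.  Given a graph `G` and `k`, take the
vertices of `G`, a source `s` and a sink `t`.  For every vertex `v` there is a blue edge `v t`, so
that at most `k` vertices lie on the side of `s`.  For every edge `u v` of `G` there are a red edge
`u v` and red paths of length two from `s` to `u` and from `s` to `v`; these contribute at least 2
red cut edges unless both `u` and `v` lie on the side of `s`.  Then replace every edge by two
opposite arcs, and force `s` into `X` and `t` out of `X`: add two sets `K`, `L` of `M` new vertices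
(`M` larger than the number of red edges), and red arcs from all vertices to the vertices of `K`,
from the vertices of `K` to `s`, from the vertices of `L` to all vertices, and from `t` to the
vertices of `L`.  If `X` is nonempty and `s` is not in `X`, then at least `M` red arcs leave `X`;
the same holds if `X` is not the whole vertex set and `t` is in `X`.  If `s` is in `X`, `t` is not,
`K` is contained in `X` and `L` is disjoint from `X`, no new arc leaves `X`.
-/

namespace Pool.Agent.Results.MP_ac2b6c_lc.DirectedNPComplete

open Pool.Agent.NPC Pool.Agent.NPC.H593R3.DRB

/-- **The directed red-blue cut problem is NP-complete**, both for digraphs in which loops and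
parallel arcs are allowed and for simple digraphs. -/
theorem result : (InNPP DirectedRedBlueCut ∧ NPHardP DirectedRedBlueCut) ∧
    (InNPP SimpleDirectedRedBlueCut ∧ NPHardP SimpleDirectedRedBlueCut) :=
  ⟨⟨inNPP_directed, npHard_directed⟩, ⟨inNPP_simpleDirected, npHard_simpleDirected⟩⟩

end Pool.Agent.Results.MP_ac2b6c_lc.DirectedNPComplete
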